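import Mathlib
import Pool.Agent.MP_c44838_an.Defs
import Pool.Agent.Mg.Fc44838.G62a6a6

namespace Pool.Agent.Results.MP_c44838_an.Cancellation

open Pool.Agent.MP_c44838_an

universe u v w x y

theorem result {I K K' : Type u} (m : I → ℕ) (n : ℕ)
    (hK : Cardinal.mk K < Cardinal.mk K') [Infinite K']
    (A : Type v) (D : Type w) (C : Type x) (B : Type y)
    [CStarAlgebra A] [CStarAlgebra D] [CStarAlgebra C] [CStarAlgebra B]
    (hA : IsMatrixTensorProduct m A)
    (hD : IsMatrixTensorProduct (fun _ : K => n) D)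
    (hC : IsMatrixTensorProduct (fun _ : K' => n) C)
    (hB : IsCStarTensorProduct A D B)
    (h : ∃ Φ : C →⋆ₐ[ℂ] B, Function.Injective Φ) :
    ∃ Ψ : C →⋆ₐ[ℂ] A, Function.Injective Ψ :=
  main m n hK A D C B hA hD hC hB h

end Pool.Agent.Results.MP_c44838_an.Cancellation
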